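import Pool.Agent.Helper28.ND.Spec

namespace Pool.Agent.Helper33.ND.CHAIN
open MeasureTheory Set Filter Topology Pool.Agent.Helper28.ND
open scoped ENNReal NNReal

/-- The projection as a continuous linear map. -/
noncomputable def L {d : ℕ} (hd : 2 ≤ d) : (Fin d → ℝ) →L[ℝ] ℂ :=
  (ContinuousLinearMap.proj (R := ℝ) (φ := fun _ : Fin d => ℝ) (i0 hd)).smulRight (1 : ℂ) +
  (ContinuousLinearMap.proj (R := ℝ) (φ := fun _ : Fin d => ℝ) (i1 hd)).smulRight Complex.I

theorem L_apply {d : ℕ} (hd : 2 ≤ d) (x : Fin d → ℝ) : L hd x = prj hd x := by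
  apply Complex.ext <;> simp [L, prj, i0, i1]

theorem prj_single0 {d : ℕ} (hd : 2 ≤ d) : prj hd (Pi.single (i0 hd) 1) = 1 := by
  apply Complex.ext
  · simp [prj, i0]
  · simp [prj, i0, Pi.single_apply]

theorem prj_single1 {d : ℕ} (hd : 2 ≤ d) : prj hd (Pi.single (i1 hd) 1) = Complex.I := by
  apply Complex.ext
  · simp [prj, i1, Pi.single_apply]
  · simp [prj, i1]

theorem hasFDerivAt_cp (h2 : S_WPF) {d : ℕ} (hd : 2 ≤ d) {Y : ℂ → ℝ} {x : Fin d → ℝ}
    (hx : prj hd x ∉ Bad) (hY : DifferentiableAt ℝ Y (wp (prj hd x))) :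
    HasFDerivAt (cp hd Y) ((fderiv ℝ Y (wp (prj hd x))).comp
      ((ContinuousLinearMap.smulRight (1 : ℂ →L[ℂ] ℂ) (deriv wp (prj hd x))).restrictScalars ℝ |>.comp
        (L hd))) x := by
  have hw : HasFDerivAt wp
      ((ContinuousLinearMap.smulRight (1 : ℂ →L[ℂ] ℂ) (deriv wp (prj hd x))).restrictScalars ℝ)
      (L hd x) := by
    rw [L_apply]
    exact ((h2.2.2.2.2.1 _ hx).differentiableAt.hasDerivAt.hasFDerivAt).restrictScalars ℝ
  have h1 : HasFDerivAt (fun y : Fin d → ℝ => wp (L hd y)) _ x := hw.comp x (L hd).hasFDerivAt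
  have h3 : HasFDerivAt Y (fderiv ℝ Y (wp (prj hd x))) (wp (L hd x)) := by
    rw [L_apply]
    exact hY.hasFDerivAt
  have h4 := h3.comp x h1
  refine h4.congr_of_eventuallyEq (Eventually.of_forall fun y => ?_)
  simp only [cp, Function.comp, L_apply]

theorem pd_cp (h2 : S_WPF) {d : ℕ} (hd : 2 ≤ d) {Y : ℂ → ℝ} {x : Fin d → ℝ}
    (hx : prj hd x ∉ Bad) (hY : DifferentiableAt ℝ Y (wp (prj hd x))) (i : Fin d) :
    pd i (cp hd Y) x = fderiv ℝ Y (wp (prj hd x))
      (prj hd (Pi.single i 1) * deriv wp (prj hd x)) := by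
  rw [pd, (hasFDerivAt_cp h2 hd hx hY).fderiv]
  simp [L_apply]

theorem main (h1 : S_ID) (h2 : S_WPF) : S_CHAIN := by
  intro a k ha ha1 hak d hd x hx
  have hz : wp (prj hd x) ≠ 0 := hx
  obtain ⟨hW, hP, hX, hI⟩ := h1 a k ha ha1 hak (wp (prj hd x)) hz
  have hW' := hW.differentiableAt (by simp)
  have hP' := hP.differentiableAt (by simp)
  have hX' := hX.differentiableAt (by simp)
  have e0 := fun Y hY => pd_cp h2 hd (Y := Y) hx hY (i0 hd)
  have e1 := fun Y hY => pd_cp h2 hd (Y := Y) hx hY (i1 hd)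
  simp only [prj_single0, one_mul] at e0
  simp only [prj_single1] at e1
  rw [e0 _ hX', e0 _ hP', e1 _ hW', e1 _ hX', e1 _ hP', e0 _ hW', hI, hI]
  refine ⟨rfl, ?_⟩
  have : Complex.I * (Complex.I * deriv wp (prj hd x)) = - deriv wp (prj hd x) := by
    rw [← mul_assoc, Complex.I_mul_I]; ring
  rw [this, map_neg, sub_neg_eq_add]
  rfl

end Pool.Agent.Helper33.ND.CHAIN
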