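import Pool.Agent.Helper28.ND.Spec

namespace Pool.Agent.Helper33.ND.NFIN
open MeasureTheory Set Filter Topology Pool.Agent.Helper28.ND
open scoped ENNReal NNReal

theorem main (hNDR : S_NDR) (hNSO : S_NSO) (hNPA : S_NPA) : S_NFIN := by
  intro d T p q hd hT hp _ hp2
  have hpt : p ≠ ⊤ := ne_top_of_lt hp2
  set s : ℝ := p.toReal with hs
  have hps : ENNReal.ofReal s = p := ENNReal.ofReal_toReal hpt
  have hs1 : 1 ≤ s := by
    have := (ENNReal.toReal_le_toReal (by simp) hpt).2 hp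
    simpa using this
  have hs2 : s < 2 := by
    have := (ENNReal.toReal_lt_toReal hpt (by simp)).2 hp2
    simpa using this
  set a : ℝ := (2 - s) / (16 * s) with ha
  have ha0 : 0 < a := div_pos (by linarith) (by linarith)
  have has : 16 * (a * s) = 2 - s := by
    rw [ha]
    field_simp
  have ha4 : a < 1 / 4 := by
    rw [ha, div_lt_iff₀ (by linarith)]
    linarith
  have has2 : (1 + 4 * a) * s < 2 := by nlinarith
  set k : ℝ := -4 + Real.sqrt (24 - 8 * a ^ 2) with hk
  have h24 : 0 ≤ 24 - 8 * a ^ 2 := by nlinarith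
  have hsq : Real.sqrt (24 - 8 * a ^ 2) ^ 2 = 24 - 8 * a ^ 2 := Real.sq_sqrt h24
  have hak : a ^ 2 = 1 - k - k ^ 2 / 8 := by
    rw [hk]
    nlinarith
  refine ⟨bN a k hd, cp hd (Wf a k), fun _ => cp hd (Wf a k), ?_, ?_, ?_⟩
  · have := hNDR a k ha0 ha4 hak d hd T s hT hs1 has2
    rwa [hps] at this
  · exact hNSO a k ha0 ha4 hak d hd T q hT
  · exact hNPA a k ha0 ha4 hak d hd T hT

end Pool.Agent.Helper33.ND.NFIN
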