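import Pool.Agent.Helper28.ND.Spec

namespace Pool.Agent.Helper33.ND.PFIN
open MeasureTheory Set Filter Topology Pool.Agent.Helper28.ND
open scoped ENNReal NNReal

theorem main (hEST : S_EST) (hINTG : S_INTG) (hRIESZ : S_RIESZ) : S_PFIN := by
  intro d T p q hT hq hpq b u0 u hb hu
  exact hRIESZ d T u hT hu.meas hu.per (hINTG d T p q b u0 u hT hq hpq hb hu).2.2.2.1
    ⟨Real.sqrt (∫ x in Q d, (u0 x) ^ 2), fun f i hf =>
      hEST d T p q b u0 u hT hq hpq hb hu f i hf⟩

end Pool.Agent.Helper33.ND.PFIN
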