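import Pool.Agent.Helper28.ND.Spec

namespace Pool.Agent.Helper33.ND.NPA
open MeasureTheory Set Filter Topology Pool.Agent.Helper28.ND
open scoped ENNReal NNReal

noncomputable section

abbrev mu (d : ℕ) (T : ℝ) : Measure (ℝ × (Fin d → ℝ)) :=
  (volume.restrict (Ioo 0 T)).prod (volume.restrict (Q d))

theorem volume_Q (d : ℕ) : volume (Q d) = 1 := by
  simp [Q, Real.volume_pi_Ioc]

instance finQ (d : ℕ) : IsFiniteMeasure (volume.restrict (Q d)) :=
  ⟨by rw [Measure.restrict_apply_univ, volume_Q]; exact ENNReal.one_lt_top⟩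

instance finT (T : ℝ) : IsFiniteMeasure (volume.restrict (Ioo 0 T)) :=
  ⟨by rw [Measure.restrict_apply_univ, Real.volume_Ioo]; exact ENNReal.ofReal_lt_top⟩

theorem measQ (d : ℕ) : MeasurableSet (Q d) :=
  MeasurableSet.univ_pi fun _ => measurableSet_Ioc

theorem Q_sub (d : ℕ) : Q d ⊆ Set.pi Set.univ (fun _ => Set.Icc (0 : ℝ) 1) :=
  Set.pi_mono fun _ _ => Ioc_subset_Icc_self

/-- A continuous function is bounded on the space-time cylinder. -/
theorem bounded {d : ℕ} {T : ℝ} {f : ℝ → (Fin d → ℝ) → ℝ} (hf : Continuous (U f)) :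
    ∃ B : ℝ, ∀ᵐ z ∂(mu d T), ‖U f z‖ ≤ B := by
  have hc : IsCompact (Icc 0 T ×ˢ (Set.pi Set.univ (fun _ : Fin d => Set.Icc (0 : ℝ) 1))) :=
    isCompact_Icc.prod (isCompact_univ_pi fun _ => isCompact_Icc)
  obtain ⟨B, hB⟩ := hc.exists_bound_of_continuousOn hf.continuousOn
  refine ⟨B, ?_⟩
  rw [mu, Measure.prod_restrict]
  refine (ae_restrict_iff' (measurableSet_Ioo.prod (measQ d))).2 (Eventually.of_forall ?_)
  rintro ⟨t, x⟩ ⟨ht, hx⟩
  exact hB _ ⟨Ioo_subset_Icc_self ht, Q_sub d hx⟩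

theorem smooth_x {d : ℕ} {f : ℝ → (Fin d → ℝ) → ℝ} (hf : SmoothPer f) (t : ℝ) :
    ContDiff ℝ 1 (f t) := by
  have h : ContDiff ℝ (⊤ : ℕ∞) (fun x : Fin d → ℝ => U f (t, x)) :=
    hf.smooth.comp (contDiff_const.prodMk contDiff_id)
  exact h.of_le (by exact_mod_cast le_top)

theorem key (hFUND : S_FUND) {d : ℕ} {T : ℝ} (hT : 0 < T) {w : (Fin d → ℝ) → ℝ}
    {G : ℝ → (Fin d → ℝ) → (Fin d → ℝ)} (hG : Measurable (U G))
    (hG2 : (∫⁻ t in Ioo 0 T, ∫⁻ x in Q d, ENNReal.ofReal (∑ i, (G t x i) ^ 2)) < ⊤)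
    (i : Fin d) (hwi : IntegrableOn (pd i w) (Q d))
    (hibp : ∀ f : (Fin d → ℝ) → ℝ, ContDiff ℝ 1 f → Per f →
      ∫ x in Q d, pd i w x * f x = - ∫ x in Q d, w x * pd i f x)
    (hw : ∀ f : ℝ → (Fin d → ℝ) → ℝ, IsTest0 T f →
      ∫ t in Ioo 0 T, ∫ x in Q d, w x * pd i (f t) x
        = - ∫ t in Ioo 0 T, ∫ x in Q d, G t x i * f t x) :
    ∀ᵐ t ∂(volume.restrict (Ioo 0 T)), ∀ᵐ x ∂(volume.restrict (Q d)), G t x i = pd i w x := by
  have hGi : Measurable (fun z : ℝ × (Fin d → ℝ) => G z.1 z.2 i) :=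
    (measurable_pi_apply i).comp hG
  have hpd : Measurable (pd i w) := measurable_fderiv_apply_const ℝ w (Pi.single i 1)
  have hpd' : Measurable (fun z : ℝ × (Fin d → ℝ) => pd i w z.2) := hpd.comp measurable_snd
  -- integrability on the product
  have e1 : ∀ F : ℝ × (Fin d → ℝ) → ℝ≥0∞, Measurable F →
      ∫⁻ z, F z ∂(mu d T) = ∫⁻ t in Ioo 0 T, ∫⁻ x in Q d, F (t, x) := fun F hF =>
    lintegral_prod F hF.aemeasurable
  have hI1 : Integrable (fun z : ℝ × (Fin d → ℝ) => G z.1 z.2 i) (mu d T) := by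
    refine ⟨hGi.aestronglyMeasurable, ?_⟩
    have h2 : ∫⁻ z, ENNReal.ofReal (∑ j, (G z.1 z.2 j) ^ 2) ∂(mu d T) < ⊤ := by
      rw [e1 _ (by
        refine ENNReal.measurable_ofReal.comp ?_
        refine Finset.measurable_sum _ fun j _ => ?_
        exact ((measurable_pi_apply j).comp hG).pow_const 2)]
      exact hG2
    refine lt_of_le_of_lt (lintegral_mono (g := fun z =>
      1 + ENNReal.ofReal (∑ j, (G z.1 z.2 j) ^ 2)) fun z => ?_) ?_
    · have h3 : ‖G z.1 z.2 i‖ₑ = ENNReal.ofReal |G z.1 z.2 i| := by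
        rw [← Real.enorm_eq_ofReal_abs]
      beta_reduce
      rw [h3, ← ENNReal.ofReal_one, ← ENNReal.ofReal_add zero_le_one
        (Finset.sum_nonneg fun j _ => sq_nonneg _)]
      refine ENNReal.ofReal_le_ofReal ?_
      have h4 : (G z.1 z.2 i) ^ 2 ≤ ∑ j, (G z.1 z.2 j) ^ 2 :=
        Finset.single_le_sum (f := fun j => (G z.1 z.2 j) ^ 2) (fun j _ => sq_nonneg _)
          (Finset.mem_univ i)
      nlinarith [sq_abs (G z.1 z.2 i), abs_nonneg (G z.1 z.2 i), sq_nonneg (|G z.1 z.2 i| - 1)]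
    · rw [lintegral_add_left measurable_const]
      refine ENNReal.add_lt_top.2 ⟨?_, h2⟩
      rw [lintegral_const, one_mul]
      exact measure_lt_top _ _
  have hI2 : Integrable (fun z : ℝ × (Fin d → ℝ) => pd i w z.2) (mu d T) := by
    have := (integrable_const (1 : ℝ) (μ := volume.restrict (Ioo 0 T))).mul_prod
      (show Integrable (pd i w) (volume.restrict (Q d)) from hwi)
    simpa using this
  have hI : Integrable (fun z : ℝ × (Fin d → ℝ) => G z.1 z.2 i - pd i w z.2) (mu d T) :=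
    hI1.sub hI2
  have hfund := hFUND d T (fun t x => G t x i - pd i w x) hT (hGi.sub hpd') ?_ ?_
  · filter_upwards [hfund] with t ht
    filter_upwards [ht] with x hx
    linarith
  · have h5 := hI.2
    rw [HasFiniteIntegral, e1 _ (by
      exact (hGi.sub hpd').enorm)] at h5
    exact h5
  · intro f hf
    obtain ⟨B, hB⟩ := bounded (T := T) hf.1.smooth.continuous
    have hfm : AEStronglyMeasurable (U f) (mu d T) :=
      hf.1.smooth.continuous.aestronglyMeasurable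
    have J1 : Integrable (fun z : ℝ × (Fin d → ℝ) => G z.1 z.2 i * U f z) (mu d T) :=
      hI1.mul_bdd (c := B) hfm hB
    have J2 : Integrable (fun z : ℝ × (Fin d → ℝ) => pd i w z.2 * U f z) (mu d T) :=
      hI2.mul_bdd (c := B) hfm hB
    have J : Integrable (fun z : ℝ × (Fin d → ℝ) => (G z.1 z.2 i - pd i w z.2) * U f z) (mu d T) :=
      hI.mul_bdd (c := B) hfm hB
    have k1 : ∫ z, (G z.1 z.2 i - pd i w z.2) * U f z ∂(mu d T) =
        ∫ t in Ioo 0 T, ∫ x in Q d, (G t x i - pd i w x) * f t x := integral_prod _ J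
    have k2 : ∫ z, G z.1 z.2 i * U f z ∂(mu d T) =
        ∫ t in Ioo 0 T, ∫ x in Q d, G t x i * f t x := integral_prod _ J1
    have k3 : ∫ z, pd i w z.2 * U f z ∂(mu d T) =
        ∫ t in Ioo 0 T, ∫ x in Q d, pd i w x * f t x := integral_prod _ J2
    rw [← k1]
    have k4 : ∫ z, (G z.1 z.2 i - pd i w z.2) * U f z ∂(mu d T) =
        ∫ z, G z.1 z.2 i * U f z ∂(mu d T) - ∫ z, pd i w z.2 * U f z ∂(mu d T) := by
      rw [← integral_sub J1 J2]
      refine integral_congr_ae (Eventually.of_forall fun z => ?_)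
      simp only
      ring
    rw [k4, k2, k3]
    have k5 : ∫ t in Ioo 0 T, ∫ x in Q d, pd i w x * f t x =
        ∫ t in Ioo 0 T, (- ∫ x in Q d, w x * pd i (f t) x) := by
      refine integral_congr_ae (Eventually.of_forall fun t => ?_)
      exact hibp (f t) (smooth_x hf.1 t) (hf.1.per t)
    rw [k5, integral_neg, hw f hf]
    ring

theorem main (hIBPW : S_IBPW) (hBD : S_BD) (hINF : S_INF) (hFUND : S_FUND) : S_NPA := by
  intro a k ha ha4 hak d hd T hT hpar
  obtain ⟨-, G, hG, hG2, hGw⟩ := hpar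
  have hgood := (hBD a k ha (by linarith) hak).1
  obtain ⟨-, -, -, hw2, hw3⟩ := hIBPW a ha ha4 (Wf a k) hgood d hd
  have A0 := key hFUND hT hG hG2 (i0 hd) (hw2 _) (hw3 _) (hGw _)
  have A1 := key hFUND hT hG hG2 (i1 hd) (hw2 _) (hw3 _) (hGw _)
  have hmeas : Measurable (fun t : ℝ => ∫⁻ x in Q d, ENNReal.ofReal (∑ i, (G t x i) ^ 2)) := by
    refine Measurable.lintegral_prod_right' (f := fun z : ℝ × (Fin d → ℝ) =>
      ENNReal.ofReal (∑ i, (G z.1 z.2 i) ^ 2)) ?_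
    refine ENNReal.measurable_ofReal.comp ?_
    refine Finset.measurable_sum _ fun j _ => ?_
    exact ((measurable_pi_apply j).comp hG).pow_const 2
  have A2 := ae_lt_top hmeas hG2.ne
  have hne : (ae (volume.restrict (Ioo (0 : ℝ) T))).NeBot := by
    rw [ae_neBot, Ne, Measure.restrict_eq_zero, Real.volume_Ioo]
    simp [hT]
  obtain ⟨t, h0, h1, h2⟩ := (A0.and (A1.and A2)).exists
  have h3 := hINF a k ha ha4 hak d hd
  have h4 : ∫⁻ x in Q d, ENNReal.ofReal ((pd (i0 hd) (cp hd (Wf a k)) x) ^ 2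
      + (pd (i1 hd) (cp hd (Wf a k)) x) ^ 2) ≤
      ∫⁻ x in Q d, ENNReal.ofReal (∑ i, (G t x i) ^ 2) := by
    refine lintegral_mono_ae ?_
    filter_upwards [h0, h1] with x hx0 hx1
    refine ENNReal.ofReal_le_ofReal ?_
    rw [← hx0, ← hx1]
    have hne01 : i0 hd ≠ i1 hd := by
      simp [i0, i1]
    have := Finset.sum_le_sum_of_subset_of_nonneg
      (f := fun i => (G t x i) ^ 2) (Finset.subset_univ ({i0 hd, i1 hd} : Finset (Fin d)))
      (fun j _ _ => sq_nonneg _)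
    rwa [Finset.sum_pair hne01] at this
  rw [h3, top_le_iff] at h4
  exact h2.ne h4

end

end Pool.Agent.Helper33.ND.NPA
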